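import Pool.Agent.H71.VK.Stmt

/-! CLA: infinitely many neighbours of a missed component are pairwise inseparable. -/

set_option autoImplicit false

open Set Pool.Agent.TK

namespace Pool.Agent.H71.VK

private lemma cla_pull {C : Type} {M N : St C} {h : Equiv.Perm ℕ} (hh : IsoH h M N)
    {A : Set ℕ} {u : ℕ} {v : ℕ} (hc : Conn N (h '' A) (h u) v) : Conn M A u (h.symm v) := by
  obtain ⟨h1, h2⟩ := hc
  induction h2 with
  | refl =>
    rw [Equiv.symm_apply_apply]
    exact Conn.refl fun hu => h1 (mem_image_of_mem h hu)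
  | tail hb hs ih =>
    rename_i b c
    refine ih.step ?_ ?_
    · rw [hh.1, Equiv.apply_symm_apply, Equiv.apply_symm_apply]
      exact hs.1
    · intro hc
      exact hs.2 ⟨_, hc, Equiv.apply_symm_apply _ _⟩

theorem pf_CLA {C : Type} {c0 : C} : CLA C c0 := by
  intro M hM g hg hF v hv hinf
  set D := cp M (range g) v with hD
  have hcp : IsCp M (range g) D := isCp_cp hv
  have hnb : Nb M D ⊆ range g := hcp.nb hM
  refine ⟨{c | g c ∈ Nb M D}, ?_, ?_⟩
  · intro hfin
    apply hinf
    refine (hfin.image g).subset ?_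
    intro u hu
    obtain ⟨c, rfl⟩ := hnb hu
    exact ⟨c, hu, rfl⟩
  · intro a ha b hb S hS haS hbS
    obtain ⟨h, hh, hhg⟩ := hF (S ∪ {a, b}) (hS.union (by simp))
    have hha : h a = g a := hhg a (by simp)
    have hhb : h b = g b := hhg b (by simp)
    obtain ⟨-, s, hs, hE⟩ := ha
    obtain ⟨-, s', hs', hE'⟩ := hb
    have hSsub : h '' S ⊆ range g := by
      rintro _ ⟨x, hx, rfl⟩
      exact ⟨x, (hhg x (Or.inl hx)).symm⟩
    have hnot : ∀ x, x ∉ S → g x ∉ h '' S := by
      rintro x hx ⟨y, hy, hyx⟩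
      rw [hhg y (Or.inl hy)] at hyx
      exact hx (hg hyx ▸ hy)
    have hsn : s ∉ h '' S := fun h' => Set.disjoint_left.1 hcp.disj hs (hSsub h')
    have h1 : Conn M (range g) s s' := by
      have := hcp.eq_cp hM hs
      rw [this] at hs'
      exact hs'
    have h2 : Conn M (h '' S) (g a) s := Conn.single (hnot a haS) hE hsn
    have h3 : Conn M (h '' S) (g a) (g b) :=
      (h2.trans (h1.mono hSsub)).step (by rw [hM.1]; exact hE') (hnot b hbS)
    rw [← hha, ← hhb] at h3
    have h4 := cla_pull hh h3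
    rwa [Equiv.symm_apply_apply] at h4

end Pool.Agent.H71.VK
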