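import Pool.Agent.H75.TK.Asm
import Pool.Agent.H75.VK.CLA
import Pool.Agent.H41.HS.Fin
import Pool.Agent.H71.VK.CLB
import Pool.Agent.H71.VK.FIM
import Pool.Agent.H71.VK.GEN
import Pool.Agent.H71.VK.HSK
import Pool.Agent.H71.VK.REDG
import Pool.Agent.H33.VK.RLB
import Pool.Agent.H34.VK.LIFT
import Pool.Agent.H54.VK.RTR
import Pool.Agent.H66.VK.CLI
import Pool.Agent.H74.VK.FLC
import Pool.Agent.H77.VK.DVT
import Pool.Agent.H77.VK.HB
import Pool.Agent.H94.VK.FLI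
import Pool.Agent.H94.VK.FLX
import Pool.Agent.H94.VK.MVM
import Pool.Agent.H94.VK.RLM
import Pool.Agent.H96.VK.SWG

/-! Assembly of the second theorem (rows of vk_modules and HS). -/

set_option autoImplicit false

open Set Pool.Agent.TK Pool.Agent.H71.VK Pool.Agent.H41.HS

namespace Pool.Agent.H75.VK

theorem vk_gen {C : Type} [MeasurableSpace C] [StandardBorelSpace C] (c0 : C) : GEN C c0 := by
  have hCTR : CTR C := pf_CTR
  have hREL : REL C := pf_REL hCTR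
  have hRPF : RPF C c0 := pf_RPF
  have hCOMP : COMP C c0 := pf_COMP
  have hMEM : MEM C c0 := pf_MEM hCOMP hRPF
  have hMEA : MEA C c0 := pf_MEA hRPF
  have hTRA : TRA C c0 := pf_TRA
  have hINF : INF C := pf_INF
  have hEXN : EXN C c0 := pf_EXN hTRA hINF
  have hFINB : FINB C c0 := pf_FINB hEXN hRPF hMEM hMEA
  have hCNT : CNT C c0 := pf_CNT hREL
  have hNFM : NFM C := pf_NFM
  have hTYC : TYC C := pf_TYC pf_THN hNFM
  have hLOP : LOP C := pf_LOP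
  have hSCO : SCO C := pf_SCO pf_SC1 pf_SC2
  have hITR : ITR C c0 := pf_ITR
  have hSWG : SWG C c0 := pf_SWG
  have hRLB : RLB C := Pool.Agent.H33.VK.pf_RLB
  have hRTR : RTR C c0 := pf_RTR hITR
  have hFIM : FIM C := pf_FIM hSCO
  have hMVM : MVM C c0 := pf_MVM hSWG hFIM
  have hRLM : RLM C c0 := pf_RLM hRLB hMVM
  have hFLX : FLX C := pf_FLX hRLB
  have hFLI : FLI C c0 := pf_FLI hRTR hRLB
  have hFLC : FLC C := pf_FLC
  have hLIFT : LIFT C := pf_LIFT hRLB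
  have hHB : HB C c0 := pf_HB hLOP hNFM hTYC hCNT hFINB
  exact pf_GEN hHB hRLM hFLX hFLI hFLC hLIFT

/-- divisibility of the quotient structure gives the conclusion `HSP` -/
theorem vk_hsp {C : Type} {c0 : C} (T : Set (Fl C)) (M : St C) (hV : Valid c0 M)
    (hBF : BigFin T M) (ν : List ℕ → ℕ) (φ : Y C) (hF : Flat T M ν φ) (hdiv : PDiv (AutY φ)) :
    HSP M :=
  hsp_of_div Pool.Agent.H33.VK.pf_RLB pf_FLC (pf_LIFT Pool.Agent.H33.VK.pf_RLB) pf_SWG pf_ITR T M hV hBF ν φ hF hdiv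

/-- the theorem HS for relational structures -/
theorem vk_hs {C : Type} [MeasurableSpace C] [StandardBorelSpace C] (c0 : C)
    (X : Set (List ℕ → C)) (hX : MeasurableSet X) (hinv : ∀ c ∈ X, ∀ c', RIso c c' → c' ∈ X) :
    (∃ f : (ℕ → Bool) → List ℕ → C, Measurable f ∧ (∀ x, f x ∈ X) ∧
      ∀ x x', x ≠ x' → ¬ RIso (f x) (f x')) ∨
    (∃ T : Set (List ℕ → C), T.Countable ∧ ∀ c ∈ X, ∃ c' ∈ T, RIso c c') ∨
    ¬ ∃ T : Set (List ℕ → C), T.Countable ∧ ∀ c ∈ X, HSP (mk c0 c) → ∃ c' ∈ T, RIso c c' :=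
  pf_REDG (vk_gen c0) HSP (fun T M hV hBF ν φ hF hdiv => vk_hsp T M hV hBF ν φ hF hdiv) X hX hinv

/-- both theorems -/
theorem vk_both {C : Type} [MeasurableSpace C] [StandardBorelSpace C] (c0 : C)
    (X : Set (List ℕ → C)) (hX : MeasurableSet X) (hinv : ∀ c ∈ X, ∀ c', RIso c c' → c' ∈ X) :
    (∃ f : (ℕ → Bool) → List ℕ → C, Measurable f ∧ (∀ x, f x ∈ X) ∧
      ∀ x x', x ≠ x' → ¬ RIso (f x) (f x')) ∨
    (∃ T : Set (List ℕ → C), T.Countable ∧ ∀ c ∈ X, ∃ c' ∈ T, RIso c c') ∨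
    ((∃ T : Set (List ℕ → C), T.Countable ∧
        ∀ c ∈ X, ¬ TopK (Gaifman c0 c) → ∃ c' ∈ T, RIso c c') ∧
      ¬ ∃ T : Set (List ℕ → C), T.Countable ∧ ∀ c ∈ X, HSP (mk c0 c) → ∃ c' ∈ T, RIso c c') := by
  rcases tkx_main c0 X hX hinv with h1 | h1
  · exact Or.inl h1
  rcases vk_hs c0 X hX hinv with h2 | h2 | h2
  · exact Or.inl h2
  · exact Or.inr (Or.inl h2)
  · exact Or.inr (Or.inr ⟨h1, h2⟩)

end Pool.Agent.H75.VK
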